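import Mathlib
import Pool.Agent.H.MP_5a4599_gt.A

set_option autoImplicit false

namespace Pool.Agent.Results.MP_5a4599_gt.No

open Cardinal TopologicalSpace Pool.Agent.H.MP_891d8f_lc Pool.Agent.H.MP_5a4599_gt

theorem result (hk : ¬ KA) (hb : Bb) (X : Type) [TopologicalSpace X] [RegularSpace X]
    (hX : #X = ℵ₁) (B : ℕ → Set (Set X)) (hB : IsTopologicalBasis (⋃ n, B n))
    (hl : ∀ n, LC (B n)) : (∀ F : Set X, IsClosed F → IsGδ F) ∧ MC X :=
  main hk hb X hX B hB hl

end Pool.Agent.Results.MP_5a4599_gt.No
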